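import Pool.Agent.H1.CM.Targets1

/-!
# Module COL: the colon lemma
-/

namespace Pool.Agent.H1.CM

theorem COL.comb_shift {k K : Type} [Field k] [Field K] (j : k →+* K) (q : Quad K) (e : ℕ) (g : Idx →₀ k) :
    comb j q.mon (g.mapDomain fun s : Idx => ((s.1 + e, s.2.1, s.2.2) : Idx))
      = comb j q.mon g * (q.X : K) ^ e := by
  unfold comb
  rw [Finsupp.sum_mapDomain_index (by simp) (by intros; simp [add_mul]), Finsupp.sum, Finsupp.sum,
    Finset.sum_mul]
  refine Finset.sum_congr rfl fun s _ => ?_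
  have h := mon_shift q (e : ℤ) 0 s
  rw [add_zero] at h
  rw [← h, zpow_natCast, zpow_zero, Units.val_one, mul_one, Units.val_pow_eq_pow_val]
  ring

theorem COL.shift_inj (e : ℕ) : Function.Injective fun s : Idx => ((s.1 + e, s.2.1, s.2.2) : Idx) := by
  intro s t h
  simp only [Prod.mk.injEq, add_left_inj] at h
  exact Prod.ext h.1 (Prod.ext h.2.1 h.2.2)

theorem col : T_COL := by
  intro k K _ _ j q hq d e f hf hf'
  obtain ⟨g, hg, rfl⟩ := hf
  obtain ⟨g', hg', h⟩ := hf'
  rw [← COL.comb_shift] at h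
  have h2 := hq.inj h
  refine ⟨g, fun s hs => ?_, rfl⟩
  have h3 : ((s.1 + e, s.2.1, s.2.2) : Idx) ∈ g'.support := by
    rw [← h2, Finsupp.mapDomain_support_of_injective (COL.shift_inj e)]
    exact Finset.mem_image_of_mem _ hs
  have h4 := hg' _ h3 2 (by simp)
  have h5 := hg s hs
  intro r hr
  have h6 := h5 r hr
  fin_cases r
  · simpa [expo] using h6
  · simpa [expo] using h6
  · simp [expo] at h4 h6 ⊢
    linarith

end Pool.Agent.H1.CM
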