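import Pool.Agent.H1.CM.Targets2

/-!
# Module FFX: the function field of the special fibre
-/

open CategoryTheory AlgebraicGeometry Limits

namespace Pool.Agent.H1.CM

/-- The torus chart is nonempty. -/
theorem FFX.nonempty {k : Type} [Field k] {X₀ : Scheme.{0}} (s₀ : X₀ ⟶ Spec (CommRingCat.of k)) {D : Data k}
    (S₀ : StdOver s₀ D) : Nonempty (S₀.V Finset.univ) := by
  by_contra hne
  have h1 : S₀.V Finset.univ = ⊥ := by
    ext x
    constructor
    · intro hx
      exact absurd ⟨⟨x, hx⟩⟩ hne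
    · intro hx
      exact absurd hx (by simp)
  have h2 : Subsingleton Γ(X₀, S₀.V Finset.univ) := by
    rw [h1]
    infer_instance
  have h3 : Subsingleton (Idx →₀ k) := S₀.frame.bij.1.subsingleton
  have h4 : (Finsupp.single ((0, 0, 0) : Idx) (1 : k)) = 0 := Subsingleton.elim _ _
  rw [Finsupp.single_eq_zero] at h4
  exact one_ne_zero h4

theorem FFX.scal_germ {k : Type} [Field k] {X₀ : Scheme.{0}} [IsIntegral X₀] (s₀ : X₀ ⟶ Spec (CommRingCat.of k))
    (U : X₀.Opens) (h : genericPoint X₀ ∈ U) (a : k) :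
    (X₀.presheaf.germ U (genericPoint X₀) h).hom (scal s₀ U a) = constants s₀ a := by
  unfold scal constants
  simp only [RingHom.comp_apply]
  rw [Scheme.Hom.appLE]
  simp only [CommRingCat.hom_comp, RingHom.comp_apply]
  erw [X₀.presheaf.germ_res_apply]
  rfl

theorem ffx : T_FFX := by
  intro k _ _ X₀ s₀ S₀ _
  have hne := FFX.nonempty s₀ S₀
  have hg : genericPoint X₀ ∈ S₀.V Finset.univ :=
    ((genericPoint_spec X₀).mem_open_set_iff (S₀.V Finset.univ).isOpen).mpr (by simpa using hne)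
  refine ⟨hg, ?_⟩
  set ψ : Γ(X₀, S₀.V Finset.univ) →+* X₀.functionField :=
    (X₀.presheaf.germ (S₀.V Finset.univ) (genericPoint X₀) hg).hom with hψ
  have hψi : Function.Injective ψ := germ_injective_of_isIntegral X₀ (genericPoint X₀) hg
  have hc : ∀ a : k, ψ (scal s₀ (S₀.V Finset.univ) a) = constants s₀ ((RingHom.id k) a) := fun a =>
    FFX.scal_germ s₀ _ hg a
  have hcomb : ∀ g : Idx →₀ k, comb (constants s₀) (S₀.qK hg).mon g
      = ψ (comb (scal s₀ (S₀.V Finset.univ)) S₀.q.mon g) := by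
    intro g
    rw [comb_map _ (constants s₀) (RingHom.id k) ψ hc]
    have h1 : (S₀.qK hg).mon = fun s => ψ (S₀.q.mon s) := by
      funext s
      exact Quad.map_mon ψ S₀.q s
    rw [h1]
    congr 1
    ext s
    simp
  refine ⟨?_, ?_, ?_⟩
  · intro g g' h
    rw [hcomb, hcomb] at h
    exact S₀.frame.bij.1 (hψi h)
  · intro f
    have hfr : IsFractionRing Γ(X₀, S₀.V Finset.univ) X₀.functionField :=
      functionField_isFractionRing_of_isAffineOpen X₀ _ (S₀.affine Finset.univ Finset.univ_nonempty)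
    obtain ⟨⟨x, y⟩, hxy⟩ := IsLocalization.surj (nonZeroDivisors Γ(X₀, S₀.V Finset.univ)) f
    obtain ⟨g, hg1⟩ := S₀.frame.bij.2 x
    obtain ⟨h, hh1⟩ := S₀.frame.bij.2 (y : Γ(X₀, S₀.V Finset.univ))
    refine ⟨g, h, ?_, ?_⟩
    · rw [hcomb, hh1]
      intro h0
      have h2 : (y : Γ(X₀, S₀.V Finset.univ)) = 0 := hψi (by rw [h0, map_zero])
      have h3 : Nontrivial Γ(X₀, S₀.V Finset.univ) := ψ.domain_nontrivial
      exact nonZeroDivisors.ne_zero y.2 h2
    · rw [hcomb, hcomb, hg1, hh1]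
      exact hxy
  · have h2 := S₀.rel.map (RingHom.id k) ψ hc
    have h3 : (std (0 : k)).map (RingHom.id k) = std (0 : k) := by
      rw [std_map]
      rfl
    rw [h3] at h2
    exact h2

end Pool.Agent.H1.CM
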