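import Pool.Agent.H1.CM.Targets2
import Pool.Agent.H29.CMX.FFX

/-!
# Module INT: the special fibre is integral
-/

open CategoryTheory AlgebraicGeometry Limits

namespace Pool.Agent.H1.CM

/-- An affine open subscheme with a domain of sections is integral. -/
theorem INT.opens {X : Scheme.{0}} (U : X.Opens) (hU : IsAffineOpen U) (hne : Nonempty U)
    (hd : IsDomain Γ(X, U)) : IsIntegral (U : Scheme.{0}) := by
  have h1 : IsAffine (U : Scheme.{0}) := hU
  have h2 : IsDomain Γ((U : Scheme.{0}), ⊤) :=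
    MulEquiv.isDomain Γ(X, U) (U.topIso.commRingCatIsoToRingEquiv).toMulEquiv
  have h3 : Nonempty (U : Scheme.{0}) := hne
  exact isIntegral_of_isAffine_of_isDomain _

theorem int (h1 : T_DOM) : T_INT := by
  intro k _ h2 X₀ s₀ S₀
  have hC : IsDomain Γ(X₀, S₀.V Finset.univ) := h1 _ _ h2 S₀.frame.bij S₀.rel
  have hne := FFX.nonempty s₀ S₀
  obtain ⟨⟨x0, hx0⟩⟩ := hne
  have hle : ∀ r : Fin 3, S₀.V Finset.univ ≤ S₀.V {r} := fun r => S₀.le {r} (Finset.singleton_nonempty r)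
  have hr : ∀ r : Fin 3, IsIntegral ((S₀.V {r} : X₀.Opens) : Scheme.{0}) := by
    intro r
    refine INT.opens _ (S₀.affine {r} (Finset.singleton_nonempty r)) ⟨⟨x0, hle r hx0⟩⟩ ?_
    exact Function.Injective.isDomain (rs X₀ (hle r)) (S₀.inj {r} (Finset.singleton_nonempty r))
  have hcov : ∀ x : X₀, ∃ r : Fin 3, x ∈ S₀.V {r} := by
    intro x
    have hx : x ∈ (⨆ r : Fin 3, S₀.V {r}) := by
      rw [S₀.cover]
      trivial
    exact TopologicalSpace.Opens.mem_iSup.mp hx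
  have hirr : ∀ r : Fin 3, IsPreirreducible (S₀.V {r} : Set X₀) := by
    intro r
    have := hr r
    have h3 : IrreducibleSpace ((S₀.V {r} : X₀.Opens) : Scheme.{0}) := inferInstance
    have h4 : IsPreirreducible (Set.univ : Set ((S₀.V {r} : X₀.Opens) : Scheme.{0})) :=
      h3.toPreirreducibleSpace.isPreirreducible_univ
    have h5 := h4.image (S₀.V {r}).ι (S₀.V {r}).ι.continuous.continuousOn
    rw [Set.image_univ, Scheme.Opens.range_ι] at h5
    exact h5
  have hpre : PreirreducibleSpace X₀ := by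
    constructor
    intro U1 U2 hU1 hU2 h3 h4
    have key : ∀ U : Set X₀, IsOpen U → (Set.univ ∩ U).Nonempty → ((S₀.V {0} : Set X₀) ∩ (U ∩ S₀.V Finset.univ)).Nonempty := by
      intro U hU ⟨x, _, hx⟩
      obtain ⟨r, hxr⟩ := hcov x
      obtain ⟨y, hy1, hy2, hy3⟩ := hirr r U (S₀.V Finset.univ) hU (S₀.V Finset.univ).isOpen ⟨x, hxr, hx⟩
        ⟨x0, hle r hx0, hx0⟩
      exact ⟨y, hle 0 hy3, hy2, hy3⟩
    obtain ⟨y, _, ⟨hy1, _⟩, hy2, _⟩ := hirr 0 (U1 ∩ S₀.V Finset.univ) (U2 ∩ S₀.V Finset.univ)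
      (hU1.inter (S₀.V Finset.univ).isOpen) (hU2.inter (S₀.V Finset.univ).isOpen) (key U1 hU1 h3) (key U2 hU2 h4)
    exact ⟨y, trivial, hy1, hy2⟩
  have hirrs : IrreducibleSpace X₀ := { toPreirreducibleSpace := hpre, toNonempty := ⟨x0⟩ }
  have hred : IsReduced X₀ := by
    have : ∀ x : X₀, _root_.IsReduced (X₀.presheaf.stalk x) := by
      intro x
      obtain ⟨r, hxr⟩ := hcov x
      have := hr r
      have h3 : _root_.IsReduced (((S₀.V {r} : X₀.Opens) : Scheme.{0}).presheaf.stalk ⟨x, hxr⟩) := inferInstance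
      exact isReduced_of_injective (((S₀.V {r}).stalkIso ⟨x, hxr⟩).inv.hom)
        (ConcreteCategory.bijective_of_isIso ((S₀.V {r}).stalkIso ⟨x, hxr⟩).inv).1
    exact isReduced_of_isReduced_stalk X₀
  exact isIntegral_of_irreducibleSpace_of_isReduced X₀

end Pool.Agent.H1.CM
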