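import Pool.Agent.H1.CM.Targets3

/-!
# Module PFP: finite presentation of the model
-/

open CategoryTheory AlgebraicGeometry Limits

namespace Pool.Agent.H1.CM

theorem pfp (h1 : T_PPR) : T_PFP := by
  intro P _ _ D _
  have h2 : IsProper (projStr D) := h1 D
  have h3 : LocallyOfFiniteType (projStr D) := h2.toLocallyOfFiniteType
  exact (LocallyOfFinitePresentation.iff_locallyOfFiniteType).mpr h3

end Pool.Agent.H1.CM
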