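import Pool.Agent.H1.CM.Targets2

/-!
# Module FLAT: flatness of sections over affine open sets
-/

open CategoryTheory AlgebraicGeometry Limits

namespace Pool.Agent.H1.CM

theorem flat : T_FLAT := by
  intro A _ X f hf U hU
  have h1 : (f.appLE ⊤ U (by simp)).hom.Flat := by
    have := hf
    exact Flat.flat_appLE f (isAffineOpen_top _) hU (by simp)
  have h2 : (Scheme.ΓSpecIso (CommRingCat.of A)).inv.hom.Flat := by
    refine RingHom.Flat.of_bijective ?_
    exact ConcreteCategory.bijective_of_isIso (Scheme.ΓSpecIso (CommRingCat.of A)).inv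
  exact RingHom.Flat.comp h2 h1

end Pool.Agent.H1.CM
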